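import Pool.Agent.Erdos456.Mertens

/-!
# Products over primes
-/

set_option autoImplicit false

namespace Pool.Agent.Q162.MB

open Finset

/-- primes up to `N` -/
abbrev PP (N : ℕ) : Finset ℕ := (Finset.Icc 1 N).filter Nat.Prime

lemma inv_sq (P : Finset ℕ) : ∑ p ∈ P, (1 : ℝ) / (p : ℝ) ^ 2 ≤ ∑' n : ℕ, (1 : ℝ) / (n : ℝ) ^ 2 :=
  (Real.summable_one_div_nat_pow.2 (by norm_num)).sum_le_tsum P fun _ _ => by positivity

/-- upper bound -/
lemma prod_le_exp (P : Finset ℕ) (g : ℕ → ℝ) (hg : ∀ p ∈ P, 0 ≤ g p) : ∏ p ∈ P, (1 + g p) ≤ Real.exp (∑ p ∈ P, g p) := by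
  rw [Real.exp_sum]
  refine Finset.prod_le_prod (fun p hp => by have := hg p hp; linarith) fun p _ => ?_
  have := Real.add_one_le_exp (g p)
  linarith

lemma upper (K : ℕ) : ∃ C : ℝ, 0 < C ∧ ∀ N : ℕ, 1 ≤ N →
    ∏ p ∈ PP N, (1 + (K : ℝ) / p) ≤ C * (1 + Real.log N) ^ K := by
  obtain ⟨C, hC⟩ := Pool.Agent.Erdos456.Mert.mertens_inv
  refine ⟨Real.exp (K * C) + (1 + K), by positivity, fun N hN => ?_⟩
  have hlog : 0 ≤ Real.log N := Real.log_nonneg (by exact_mod_cast hN)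
  have hone : 1 ≤ (1 + Real.log N) ^ K := one_le_pow₀ (by linarith)
  rcases le_or_gt 3 N with h3 | h3
  · have hN0 : (0 : ℝ) < N := by positivity
    have hl1 : 1 < Real.log N := by
      rw [Real.lt_log_iff_exp_lt hN0]
      have := Real.exp_one_lt_d9
      have h4 : (3 : ℝ) ≤ N := by exact_mod_cast h3
      linarith
    have h1 := (abs_le.1 (hC N h3)).2
    have h2 : ∏ p ∈ PP N, (1 + (K : ℝ) / p) ≤ Real.exp (∑ p ∈ PP N, (K : ℝ) / p) :=
      prod_le_exp _ _ fun p _ => by positivity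
    have h4 : ∑ p ∈ PP N, (K : ℝ) / p = K * ∑ p ∈ PP N, (1 : ℝ) / p := by
      rw [Finset.mul_sum]
      refine Finset.sum_congr rfl fun p _ => ?_
      ring
    have h5 : Real.exp (∑ p ∈ PP N, (K : ℝ) / p) ≤ Real.exp (K * C) * Real.log N ^ K := by
      rw [h4]
      have : Real.log N ^ K = Real.exp (K * Real.log (Real.log N)) := by
        rw [Real.exp_nat_mul, Real.exp_log (by linarith)]
      rw [this, ← Real.exp_add, Real.exp_le_exp, ← mul_add]
      exact mul_le_mul_of_nonneg_left (by linarith) (Nat.cast_nonneg _)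
    have h6 : Real.log N ^ K ≤ (1 + Real.log N) ^ K := pow_le_pow_left₀ hlog (by linarith) K
    have h7 : 0 ≤ (1 + (K : ℝ)) * (1 + Real.log N) ^ K := by positivity
    have h8 := mul_le_mul_of_nonneg_left h6 (Real.exp_pos (K * C)).le
    linarith
  · have hsub : PP N ⊆ {2} := by
      intro p hp
      rw [Finset.mem_filter, Finset.mem_Icc] at hp
      rw [Finset.mem_singleton]
      have := hp.2.two_le
      omega
    have h1 : ∏ p ∈ PP N, (1 + (K : ℝ) / p) ≤ 1 + K := by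
      have h2 : ∏ p ∈ PP N, (1 + (K : ℝ) / p) ≤ ∏ p ∈ ({2} : Finset ℕ), (1 + (K : ℝ) / p) :=
        Finset.prod_le_prod_of_subset_of_one_le hsub (fun p _ => by positivity) fun p _ _ => by
          have : (0 : ℝ) ≤ K / p := by positivity
          linarith
      rw [Finset.prod_singleton] at h2
      have h3 : (K : ℝ) / (2 : ℕ) ≤ K := by
        push_cast
        have : (0 : ℝ) ≤ K := Nat.cast_nonneg _
        linarith
      linarith
    have h2 : (0 : ℝ) < Real.exp (K * C) := Real.exp_pos _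
    have h3 : (1 + (K : ℝ)) * 1 ≤ (1 + K) * (1 + Real.log N) ^ K := mul_le_mul_of_nonneg_left hone (by positivity)
    have h4 : 0 ≤ Real.exp (K * C) * (1 + Real.log N) ^ K := by positivity
    nlinarith

lemma one_add_ge {x : ℝ} (hx : 0 ≤ x) : Real.exp (x - x ^ 2 / 2) ≤ 1 + x := by
  rw [← Real.le_log_iff_exp_le (by linarith)]
  refine le_trans ?_ (Real.le_log_one_add_of_nonneg hx)
  rw [le_div_iff₀ (by linarith)]
  nlinarith [mul_nonneg hx (sq_nonneg x)]

lemma lower (K : ℕ) : ∃ c : ℝ, 0 < c ∧ ∀ N : ℕ, 3 ≤ N →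
    c * Real.log N ^ K ≤ ∏ p ∈ PP N, (1 + (K : ℝ) / p) := by
  obtain ⟨C, hC⟩ := Pool.Agent.Erdos456.Mert.mertens_inv
  set S : ℝ := ∑' n : ℕ, (1 : ℝ) / (n : ℝ) ^ 2 with hS
  refine ⟨Real.exp (-(K * C) - (K : ℝ) ^ 2 / 2 * S), by positivity, fun N h3 => ?_⟩
  have hN0 : (0 : ℝ) < N := by positivity
  have hl1 : 1 < Real.log N := by
    rw [Real.lt_log_iff_exp_lt hN0]
    have := Real.exp_one_lt_d9
    have h4 : (3 : ℝ) ≤ N := by exact_mod_cast h3
    linarith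
  have h1 := (abs_le.1 (hC N h3)).1
  have h2 : Real.exp (∑ p ∈ PP N, ((K : ℝ) / p - ((K : ℝ) / p) ^ 2 / 2)) ≤ ∏ p ∈ PP N, (1 + (K : ℝ) / p) := by
    rw [Real.exp_sum]
    exact Finset.prod_le_prod (fun _ _ => (Real.exp_pos _).le) fun p _ => one_add_ge (by positivity)
  refine le_trans ?_ h2
  have : Real.log N ^ K = Real.exp (K * Real.log (Real.log N)) := by
    rw [Real.exp_nat_mul, Real.exp_log (by linarith)]
  rw [this, ← Real.exp_add, Real.exp_le_exp, Finset.sum_sub_distrib]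
  have h4 : ∑ p ∈ PP N, (K : ℝ) / p = K * ∑ p ∈ PP N, (1 : ℝ) / p := by
    rw [Finset.mul_sum]
    refine Finset.sum_congr rfl fun p _ => ?_
    ring
  have h5 : ∑ p ∈ PP N, ((K : ℝ) / p) ^ 2 / 2 = (K : ℝ) ^ 2 / 2 * ∑ p ∈ PP N, (1 : ℝ) / (p : ℝ) ^ 2 := by
    rw [Finset.mul_sum]
    refine Finset.sum_congr rfl fun p _ => ?_
    rw [div_pow]
    ring
  rw [h4, h5]
  have h6 := mul_le_mul_of_nonneg_left (inv_sq (PP N)) (show 0 ≤ (K : ℝ) ^ 2 / 2 by positivity)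
  have h7 := mul_le_mul_of_nonneg_left h1 (Nat.cast_nonneg (α := ℝ) K)
  nlinarith

end Pool.Agent.Q162.MB
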