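import Pool.Agent.Q122.MB.Stm
import Pool.Agent.Q162.MB.Pre

/-!
# Project MB: GD, an upper bound in short intervals
-/

set_option autoImplicit false

namespace Pool.Agent.Q162.MB

open Finset

lemma card_mult (n y h : ℕ) (hn : 1 ≤ n) :
    (((Ioc y (y + h)).filter fun d => n ∣ d).card : ℝ) ≤ h / n + 1 := by
  have e1 := Nat.Ioc_filter_dvd_card_eq_div (y + h) n
  have e2 := Nat.Ioc_filter_dvd_card_eq_div y n
  have hsplit : ((Ioc 0 (y + h)).filter fun d => n ∣ d) =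
      ((Ioc 0 y).filter fun d => n ∣ d) ∪ ((Ioc y (y + h)).filter fun d => n ∣ d) := by
    rw [← Finset.filter_union, Finset.Ioc_union_Ioc_eq_Ioc (Nat.zero_le _) (Nat.le_add_right _ _)]
  have hdisj : Disjoint ((Ioc 0 y).filter fun d => n ∣ d) ((Ioc y (y + h)).filter fun d => n ∣ d) := by
    rw [Finset.disjoint_left]
    intro d h1 h2
    rw [Finset.mem_filter, Finset.mem_Ioc] at h1 h2
    omega
  rw [hsplit, Finset.card_union_of_disjoint hdisj, e2] at e1
  have hn0 : (0 : ℝ) < n := by exact_mod_cast hn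
  have h1 : (((y + h) / n : ℕ) : ℝ) ≤ (y + h : ℝ) / n := by
    have := Nat.cast_div_le (α := ℝ) (m := y + h) (n := n)
    push_cast at this
    exact this
  have h2 : (y : ℝ) / n < ((y / n : ℕ) : ℝ) + 1 := by
    rw [div_lt_iff₀ hn0]
    have := Nat.lt_div_mul_add hn (a := y)
    have h3 : (y : ℝ) < ((y / n : ℕ) : ℝ) * n + n := by exact_mod_cast this
    linarith
  have h3 : ((y / n : ℕ) : ℝ) + (((Ioc y (y + h)).filter fun d => n ∣ d).card : ℝ) =
      (((y + h) / n : ℕ) : ℝ) := by exact_mod_cast e1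
  have h4 : (y + h : ℝ) / n = y / n + h / n := add_div _ _ _
  linarith

theorem t_GD : Pool.Agent.Q122.MB.S_GD := by
  intro K
  obtain ⟨C, hC0, hC⟩ := upper K
  set S : ℝ := ∑' n : ℕ, (1 : ℝ) / (n : ℝ) ^ 2 with hS
  refine ⟨Real.exp (K * S) + C, by positivity, fun y h hh => ?_⟩
  set P := PP (y + h) with hP
  have hPp : ∀ p ∈ P, p.Prime := fun p hp => (Finset.mem_filter.1 hp).2
  have e1 : ∀ d ∈ Ioc y (y + h), ∏ p ∈ d.primeFactors, (1 + (K : ℝ) / p) ≤
      ∑ A ∈ P.powerset, if (∏ p ∈ A, p) ∣ d then ∏ p ∈ A, (K : ℝ) / p else 0 := by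
    intro d hd
    rw [Finset.mem_Ioc] at hd
    rw [Finset.prod_one_add, ← Finset.sum_filter]
    refine Finset.sum_le_sum_of_subset_of_nonneg ?_ fun A _ _ => Finset.prod_nonneg fun p _ => by positivity
    intro A hA
    rw [Finset.mem_powerset] at hA
    rw [Finset.mem_filter, Finset.mem_powerset]
    refine ⟨fun p hp => ?_, ?_⟩
    · have hpd := Nat.mem_primeFactors.1 (hA hp)
      rw [hP, Finset.mem_filter, Finset.mem_Icc]
      have := Nat.le_of_dvd (by omega) hpd.2.1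
      exact ⟨⟨hpd.1.one_lt.le, by omega⟩, hpd.1⟩
    · exact (Finset.prod_dvd_prod_of_subset _ _ _ hA).trans (Nat.prod_primeFactors_dvd d)
  refine (Finset.sum_le_sum e1).trans ?_
  rw [Finset.sum_comm]
  have e2 : ∀ A ∈ P.powerset, ∑ d ∈ Ioc y (y + h), (if (∏ p ∈ A, p) ∣ d then ∏ p ∈ A, (K : ℝ) / p else 0) ≤
      h * ∏ p ∈ A, ((K : ℝ) / (p : ℝ) ^ 2) + ∏ p ∈ A, (K : ℝ) / p := by
    intro A hA
    rw [Finset.mem_powerset] at hA
    rw [← Finset.sum_filter, Finset.sum_const, nsmul_eq_mul]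
    have hA1 : 1 ≤ ∏ p ∈ A, p := Finset.prod_pos fun p hp => (hPp p (hA hp)).pos
    have h1 := card_mult (∏ p ∈ A, p) y h hA1
    have h0 : 0 ≤ ∏ p ∈ A, (K : ℝ) / p := Finset.prod_nonneg fun p _ => by positivity
    have h2 := mul_le_mul_of_nonneg_right h1 h0
    refine h2.trans (le_of_eq ?_)
    rw [add_mul, one_mul]
    congr 1
    rw [div_mul_eq_mul_div, mul_div_assoc]
    congr 1
    push_cast
    rw [← Finset.prod_div_distrib]
    refine Finset.prod_congr rfl fun p _ => ?_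
    rw [div_div, sq]
  refine (Finset.sum_le_sum e2).trans ?_
  rw [Finset.sum_add_distrib, ← Finset.mul_sum, ← Finset.prod_one_add, ← Finset.prod_one_add]
  have f1 : ∏ p ∈ P, (1 + (K : ℝ) / (p : ℝ) ^ 2) ≤ Real.exp (K * S) := by
    refine (prod_le_exp P (fun p => (K : ℝ) / (p : ℝ) ^ 2) fun p _ => by positivity).trans ?_
    rw [Real.exp_le_exp]
    have : ∑ p ∈ P, (K : ℝ) / (p : ℝ) ^ 2 = K * ∑ p ∈ P, (1 : ℝ) / (p : ℝ) ^ 2 := by
      rw [Finset.mul_sum]
      refine Finset.sum_congr rfl fun p _ => ?_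
      ring
    rw [this]
    exact mul_le_mul_of_nonneg_left (inv_sq P) (Nat.cast_nonneg _)
  have f2 := hC (y + h) (by omega)
  rw [← hP] at f2
  set g := (1 + Real.log ((y + h : ℕ) : ℝ)) ^ K with hg
  have hg0 : 0 ≤ g := by
    have : 0 ≤ Real.log ((y + h : ℕ) : ℝ) := Real.log_natCast_nonneg _
    positivity
  have f3 := mul_le_mul_of_nonneg_left f1 (Nat.cast_nonneg (α := ℝ) h)
  have f4 : 0 ≤ Real.exp (K * S) * g := by positivity
  have f5 : 0 ≤ C * (h : ℝ) := by positivity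
  nlinarith

end Pool.Agent.Q162.MB
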