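import Pool.Agent.Q122.MB.Stm
import Pool.Agent.Q162.MB.Pre

/-!
# Project MB: LBM, a lower bound for a sum of a multiplicative function
-/

set_option autoImplicit false

namespace Pool.Agent.Q162.MB

open Finset

/-- the sum over products of sets of primes is at most the sum over integers -/
lemma inj_sum (K M d : ℕ) (P : Finset ℕ) (hP : ∀ p ∈ P, p.Prime ∧ p ≠ 2 ∧ ¬ p ∣ d) :
    ∑ A ∈ P.powerset.filter (fun A => ∏ p ∈ A, p ≤ M), ∏ p ∈ A, (K : ℝ) / p ≤
      ∑ m ∈ (Icc 1 M).filter (fun m => Squarefree m ∧ Odd m ∧ m.Coprime d),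
        (K : ℝ) ^ m.primeFactors.card / m := by
  classical
  have hpf : ∀ A ∈ P.powerset, (∏ p ∈ A, p).primeFactors = A := fun A hA =>
    Nat.primeFactors_prod fun p hp => (hP p (Finset.mem_powerset.1 hA hp)).1
  have h1 : ∑ A ∈ P.powerset.filter (fun A => ∏ p ∈ A, p ≤ M), ∏ p ∈ A, (K : ℝ) / p =
      ∑ m ∈ (P.powerset.filter (fun A => ∏ p ∈ A, p ≤ M)).image (fun A => ∏ p ∈ A, p),
        (K : ℝ) ^ m.primeFactors.card / m := by
    rw [Finset.sum_image]
    · refine Finset.sum_congr rfl fun A hA => ?_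
      rw [hpf A (Finset.mem_filter.1 hA).1, Finset.prod_div_distrib, Finset.prod_const]
      push_cast
      rfl
    · intro A hA B hB hAB
      have hA' := hpf A (Finset.mem_filter.1 hA).1
      have hB' := hpf B (Finset.mem_filter.1 hB).1
      have hAB' : ∏ p ∈ A, p = ∏ p ∈ B, p := hAB
      rw [← hA', ← hB', hAB']
  rw [h1]
  refine Finset.sum_le_sum_of_subset_of_nonneg ?_ fun m _ _ => by positivity
  intro m hm
  rw [Finset.mem_image] at hm
  obtain ⟨A, hA, rfl⟩ := hm
  rw [Finset.mem_filter] at hA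
  have hAP : ∀ p ∈ A, p.Prime ∧ p ≠ 2 ∧ ¬ p ∣ d := fun p hp => hP p (Finset.mem_powerset.1 hA.1 hp)
  rw [Finset.mem_filter, Finset.mem_Icc]
  refine ⟨⟨Finset.prod_pos fun p hp => (hAP p hp).1.pos, hA.2⟩, ?_, ?_, ?_⟩
  · refine Finset.squarefree_prod_of_pairwise_isCoprime (fun p hp q hq hpq => ?_)
      fun p hp => (hAP p hp).1.squarefree
    simp only [← Nat.coprime_iff_isRelPrime]
    exact (Nat.coprime_primes (hAP p hp).1 (hAP q hq).1).2 hpq
  · rw [Nat.odd_iff, ← Nat.not_even_iff, even_iff_two_dvd]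
    intro h2
    obtain ⟨p, hp, h⟩ := (Nat.prime_two.prime.dvd_finsetProd_iff _).1 h2
    exact (hAP p hp).2.1 ((Nat.prime_dvd_prime_iff_eq Nat.prime_two (hAP p hp).1).1 h).symm
  · exact Nat.Coprime.prod_left fun p hp => ((hAP p hp).1.coprime_iff_not_dvd).2 (hAP p hp).2.2

lemma exp_sub_one_le {t : ℝ} (h0 : 0 ≤ t) (h1 : t ≤ 1) : Real.exp t - 1 ≤ 3 * t := by
  have e1 : Real.exp t * (1 - t) ≤ 1 := by
    have h2 := Real.add_one_le_exp (-t)
    have h3 : Real.exp t * Real.exp (-t) = 1 := by rw [← Real.exp_add]; simp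
    have h4 := mul_le_mul_of_nonneg_left h2 (Real.exp_pos t).le
    nlinarith
  have e2 : Real.exp t ≤ 3 := by
    have := Real.exp_le_exp.2 h1
    have h3 := Real.exp_one_lt_d9
    linarith
  nlinarith

/-- Rankin's trick -/
lemma rankin (K M : ℕ) (hM : 1 ≤ M) (P : Finset ℕ) (hP : ∀ p ∈ P, p.Prime) (η E : ℝ) (hη : 0 ≤ η)
    (h1 : ∀ p ∈ P, η * Real.log p ≤ 1) (h2 : (K : ℝ) * (3 * η * ∑ p ∈ P, Real.log p / p) ≤ E)
    (h3 : E + 1 ≤ η * Real.log M) :
    1 / 2 * ∏ p ∈ P, (1 + (K : ℝ) / p) ≤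
      ∑ A ∈ P.powerset.filter (fun A => ∏ p ∈ A, p ≤ M), ∏ p ∈ A, (K : ℝ) / p := by
  have hM0 : (0 : ℝ) < M := by exact_mod_cast hM
  have hPpos : 0 < ∏ p ∈ P, (1 + (K : ℝ) / p) := Finset.prod_pos fun p _ => by positivity
  -- the weights
  have hw : ∀ p ∈ P, 1 + (K : ℝ) / p * (p : ℝ) ^ η ≤ (1 + (K : ℝ) / p) * Real.exp (K * (3 * η * (Real.log p / p))) := by
    intro p hp
    have hp0 : (0 : ℝ) < p := by exact_mod_cast (hP p hp).pos
    have hlp : 0 ≤ Real.log p := Real.log_natCast_nonneg p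
    have a1 : (p : ℝ) ^ η = Real.exp (η * Real.log p) := by
      rw [Real.rpow_def_of_pos hp0, mul_comm]
    have a2 := exp_sub_one_le (t := η * Real.log p) (by positivity) (h1 p hp)
    have a3 := Real.add_one_le_exp (K * (3 * η * (Real.log p / p)))
    rw [a1]
    have a4 : (K : ℝ) / p * Real.exp (η * Real.log p) ≤ (K : ℝ) / p * (1 + 3 * (η * Real.log p)) :=
      mul_le_mul_of_nonneg_left (by linarith) (by positivity)
    have a5 : (K : ℝ) / p * (1 + 3 * (η * Real.log p)) = K / p + K * (3 * η * (Real.log p / p)) := by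
      field_simp
    have a6 : 0 ≤ K * (3 * η * (Real.log p / p)) := by positivity
    have a7 : (0 : ℝ) ≤ K / p := by positivity
    nlinarith
  have hprod : ∏ p ∈ P, (1 + (K : ℝ) / p * (p : ℝ) ^ η) ≤ (∏ p ∈ P, (1 + (K : ℝ) / p)) * Real.exp E := by
    refine (Finset.prod_le_prod (fun p _ => by positivity) hw).trans ?_
    rw [Finset.prod_mul_distrib, ← Real.exp_sum]
    refine mul_le_mul_of_nonneg_left ?_ hPpos.le
    rw [Real.exp_le_exp]
    refine le_trans (le_of_eq ?_) h2
    rw [Finset.mul_sum, Finset.mul_sum]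
  -- the large products
  have hlarge : ∑ A ∈ P.powerset.filter (fun A => ¬ ∏ p ∈ A, p ≤ M), ∏ p ∈ A, (K : ℝ) / p ≤
      (M : ℝ) ^ (-η) * ∏ p ∈ P, (1 + (K : ℝ) / p * (p : ℝ) ^ η) := by
    rw [Finset.prod_one_add, Finset.mul_sum]
    refine le_trans (Finset.sum_le_sum fun A hA => ?_)
      (Finset.sum_le_sum_of_subset_of_nonneg (Finset.filter_subset _ _) fun A _ _ => ?_)
    · rw [Finset.mem_filter, Finset.mem_powerset] at hA
      have hA2 : (M : ℝ) ≤ ∏ p ∈ A, (p : ℝ) := by
        have h0 : M ≤ ∏ p ∈ A, p := by omega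
        have h1 : (M : ℝ) ≤ ((∏ p ∈ A, p : ℕ) : ℝ) := by exact_mod_cast h0
        rwa [Nat.cast_prod] at h1
      rw [Finset.prod_mul_distrib, Real.finsetProd_rpow _ _ (fun p _ => Nat.cast_nonneg p)]
      have b1 : (M : ℝ) ^ η ≤ (∏ p ∈ A, (p : ℝ)) ^ η := Real.rpow_le_rpow hM0.le hA2 hη
      have b2 : (M : ℝ) ^ (-η) * (M : ℝ) ^ η = 1 := by rw [← Real.rpow_add hM0]; simp
      have b3 : 0 ≤ ∏ p ∈ A, (K : ℝ) / p := Finset.prod_nonneg fun p _ => by positivity
      calc ∏ p ∈ A, (K : ℝ) / p = (M : ℝ) ^ (-η) * ((∏ p ∈ A, (K : ℝ) / p) * (M : ℝ) ^ η) := by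
            rw [mul_comm (∏ p ∈ A, (K : ℝ) / p), ← mul_assoc, b2, one_mul]
        _ ≤ (M : ℝ) ^ (-η) * ((∏ p ∈ A, (K : ℝ) / p) * (∏ p ∈ A, (p : ℝ)) ^ η) :=
            mul_le_mul_of_nonneg_left (mul_le_mul_of_nonneg_left b1 b3) (by positivity)
    · exact mul_nonneg (by positivity) (Finset.prod_nonneg fun p _ => by positivity)
  have hMη : (M : ℝ) ^ (-η) ≤ Real.exp (-(E + 1)) := by
    rw [Real.rpow_def_of_pos hM0, Real.exp_le_exp]
    linarith
  have htot := Finset.sum_filter_add_sum_filter_not P.powerset (fun A => ∏ p ∈ A, p ≤ M)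
    (fun A => ∏ p ∈ A, (K : ℝ) / p)
  rw [← Finset.prod_one_add] at htot
  have hl2 : (M : ℝ) ^ (-η) * ∏ p ∈ P, (1 + (K : ℝ) / p * (p : ℝ) ^ η) ≤ 1 / 2 * ∏ p ∈ P, (1 + (K : ℝ) / p) := by
    calc (M : ℝ) ^ (-η) * ∏ p ∈ P, (1 + (K : ℝ) / p * (p : ℝ) ^ η)
        ≤ Real.exp (-(E + 1)) * ((∏ p ∈ P, (1 + (K : ℝ) / p)) * Real.exp E) :=
          mul_le_mul hMη hprod (Finset.prod_nonneg fun p _ => by positivity) (Real.exp_pos _).le
      _ = Real.exp (-1) * ∏ p ∈ P, (1 + (K : ℝ) / p) := by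
          have : Real.exp (-(E + 1)) * Real.exp E = Real.exp (-1) := by
            rw [← Real.exp_add]; congr 1; ring
          rw [← this]; ring
      _ ≤ 1 / 2 * ∏ p ∈ P, (1 + (K : ℝ) / p) := by
          refine mul_le_mul_of_nonneg_right ?_ hPpos.le
          rw [Real.exp_neg, inv_le_comm₀ (Real.exp_pos _) (by norm_num)]
          have := Real.exp_one_gt_d9
          norm_num
          linarith
  linarith

theorem t_LBM : Pool.Agent.Q122.MB.S_LBM := by
  intro K hK
  obtain ⟨c₁, hc₁, hlow⟩ := lower K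
  obtain ⟨C₂, hC₂⟩ := Pool.Agent.Erdos456.Mert.mertens_log
  have hC₂0 : 0 ≤ C₂ := (abs_nonneg _).trans (hC₂ 1 le_rfl)
  set E : ℝ := 3 * K * (1 + C₂) with hE
  set R : ℝ := E + 1 with hR
  have hE0 : 0 ≤ E := by positivity
  have hR1 : 1 ≤ R := by linarith
  have hR0 : 0 < R := by linarith
  set c : ℝ := min ((2 * R) ^ K)⁻¹ (1 / 2 * (c₁ / (2 * R) ^ K) / (1 + K)) with hc
  have hcpos : 0 < c := lt_min (by positivity) (by positivity)
  refine ⟨c, hcpos, fun M d hM hd => ?_⟩
  have hM0 : (0 : ℝ) < M := by exact_mod_cast hM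
  set W : ℝ := ∏ p ∈ d.primeFactors, (1 + (K : ℝ) / p) with hW
  have hW1 : 1 ≤ W := by
    rw [hW]
    refine Finset.prod_induction _ (fun x : ℝ => 1 ≤ x) (fun a b ha hb => one_le_mul_of_one_le_of_one_le ha hb)
      le_rfl fun p _ => ?_
    have : (0 : ℝ) ≤ K / p := by positivity
    linarith
  have hW0 : 0 < W := by linarith
  have hlogM : 0 ≤ Real.log M := Real.log_natCast_nonneg M
  set T := ∑ m ∈ (Icc 1 M).filter (fun m => Squarefree m ∧ Odd m ∧ m.Coprime d),
        (K : ℝ) ^ m.primeFactors.card / m with hT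
  have hT1 : 1 ≤ T := by
    have h1 : (1 : ℕ) ∈ (Icc 1 M).filter (fun m => Squarefree m ∧ Odd m ∧ m.Coprime d) := by
      rw [Finset.mem_filter, Finset.mem_Icc]
      exact ⟨⟨le_rfl, hM⟩, squarefree_one, odd_one, Nat.coprime_one_left d⟩
    have h2 := Finset.single_le_sum (f := fun m : ℕ => (K : ℝ) ^ m.primeFactors.card / m)
      (fun m _ => by positivity) h1
    simpa using h2
  rcases le_or_gt (Real.log M) (2 * R) with hs | hs
  · -- small `M`
    have h1 : Real.log M ^ K ≤ (2 * R) ^ K := pow_le_pow_left₀ hlogM hs K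
    have h2 : W⁻¹ ≤ 1 := inv_le_one_of_one_le₀ hW1
    calc c * W⁻¹ * Real.log M ^ K ≤ ((2 * R) ^ K)⁻¹ * 1 * (2 * R) ^ K := by
          refine mul_le_mul (mul_le_mul (min_le_left _ _) h2 (by positivity) (by positivity)) h1
            (by positivity) (by positivity)
      _ = 1 := by field_simp
      _ ≤ T := hT1
  · -- large `M`
    have hlM0 : 0 < Real.log M := by linarith
    set y : ℝ := Real.exp (Real.log M / R) with hy
    set Y : ℕ := ⌊y⌋₊ with hY
    have hly : Real.log y = Real.log M / R := Real.log_exp _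
    have hly2 : 2 < Real.log M / R := by rw [lt_div_iff₀ hR0]; linarith
    have hy7 : 7 ≤ y := by
      have h9 : Real.exp 2 = Real.exp 1 * Real.exp 1 := by rw [← Real.exp_add]; norm_num
      have h8 : (7 : ℝ) ≤ Real.exp 2 := by
        have := Real.exp_one_gt_d9
        rw [h9]
        nlinarith
      exact h8.trans (Real.exp_le_exp.2 hly2.le)
    have hYy : (Y : ℝ) ≤ y := Nat.floor_le (by positivity)
    have hYy2 : y - 1 < Y := by
      have := Nat.lt_floor_add_one y
      linarith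
    have hY3 : 3 ≤ Y := by
      have : (3 : ℝ) ≤ Y := by linarith
      exact_mod_cast this
    have hY0 : (0 : ℝ) < Y := by positivity
    have hsq : Real.log M / (2 * R) ≤ Real.log Y := by
      have h1 : Real.exp (Real.log M / (2 * R)) ≤ Y := by
        have h2 : Real.exp (Real.log M / (2 * R)) ^ 2 = y := by
          rw [hy, ← Real.exp_nat_mul]
          congr 1
          push_cast
          field_simp
        set u := Real.exp (Real.log M / (2 * R)) with hu
        have hu2 : 2 ≤ u := by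
          have h3 : (1 : ℝ) ≤ Real.log M / (2 * R) := by
            rw [le_div_iff₀ (by positivity)]
            linarith
          have := Real.exp_one_gt_d9
          have h4 := Real.exp_le_exp.2 h3
          linarith
        nlinarith
      rw [← Real.log_exp (Real.log M / (2 * R))]
      exact Real.log_le_log (Real.exp_pos _) h1
    set P := (PP Y).filter (fun p => p ≠ 2 ∧ ¬ p ∣ d) with hP
    have hPp : ∀ p ∈ P, p.Prime := fun p hp => (Finset.mem_filter.1 (Finset.mem_filter.1 hp).1).2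
    set η : ℝ := R / Real.log M with hη
    have hη0 : 0 < η := by positivity
    have hηy : η * Real.log y = 1 := by rw [hly, hη]; field_simp
    have hη1 : η ≤ 1 := by
      rw [hη, div_le_one hlM0]
      linarith
    have hηY : η * Real.log Y ≤ 1 := by
      rw [← hηy]
      exact mul_le_mul_of_nonneg_left (Real.log_le_log hY0 hYy) hη0.le
    have key := rankin K M hM P hPp η E hη0.le ?_ ?_ ?_
    · have k2 := inj_sum K M d P fun p hp => ⟨hPp p hp, (Finset.mem_filter.1 hp).2⟩
      have k3 : 1 / 2 * ∏ p ∈ P, (1 + (K : ℝ) / p) ≤ T := key.trans k2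
      -- comparison of the products
      have k4 : ∏ p ∈ PP Y, (1 + (K : ℝ) / p) ≤ (∏ p ∈ P, (1 + (K : ℝ) / p)) * ((1 + K) * W) := by
        have hpos : ∀ p : ℕ, 1 ≤ 1 + (K : ℝ) / p := fun p => by
          have : (0 : ℝ) ≤ K / p := by positivity
          linarith
        rw [← Finset.prod_filter_mul_prod_filter_not (PP Y) (fun p => p ≠ 2 ∧ ¬ p ∣ d)]
        refine mul_le_mul_of_nonneg_left ?_ (Finset.prod_nonneg fun p _ => by positivity)
        have hsub : (PP Y).filter (fun p => ¬ (p ≠ 2 ∧ ¬ p ∣ d)) ⊆ insert 2 d.primeFactors := by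
          intro p hp
          rw [Finset.mem_filter, Finset.mem_filter, Finset.mem_Icc] at hp
          rw [Finset.mem_insert, Nat.mem_primeFactors]
          by_cases h2 : p = 2
          · exact Or.inl h2
          · right
            refine ⟨hp.1.2, ?_, by omega⟩
            by_contra h3
            exact hp.2 ⟨h2, h3⟩
        refine (Finset.prod_le_prod_of_subset_of_one_le hsub (fun p _ => by positivity)
          fun p _ _ => hpos p).trans ?_
        have h2K : 1 + (K : ℝ) / (2 : ℕ) ≤ 1 + K := by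
          push_cast
          have : (0 : ℝ) ≤ K := Nat.cast_nonneg _
          linarith
        by_cases h2 : 2 ∈ d.primeFactors
        · rw [Finset.insert_eq_of_mem h2]
          have : (1 : ℝ) ≤ 1 + K := by
            have : (0 : ℝ) ≤ K := Nat.cast_nonneg _
            linarith
          calc ∏ p ∈ d.primeFactors, (1 + (K : ℝ) / p) = 1 * W := by rw [one_mul]
            _ ≤ (1 + K) * W := mul_le_mul_of_nonneg_right this hW0.le
        · rw [Finset.prod_insert h2]
          exact mul_le_mul_of_nonneg_right h2K hW0.le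
      have k5 := hlow Y hY3
      have k6 : (Real.log M / (2 * R)) ^ K ≤ Real.log Y ^ K := pow_le_pow_left₀ (by positivity) hsq K
      have k7 : c₁ * (Real.log M / (2 * R)) ^ K ≤ (∏ p ∈ P, (1 + (K : ℝ) / p)) * ((1 + K) * W) :=
        (mul_le_mul_of_nonneg_left k6 hc₁.le).trans (k5.trans k4)
      calc c * W⁻¹ * Real.log M ^ K
          ≤ (1 / 2 * (c₁ / (2 * R) ^ K) / (1 + K)) * W⁻¹ * Real.log M ^ K := by
            refine mul_le_mul_of_nonneg_right (mul_le_mul_of_nonneg_right (min_le_right _ _) (by positivity))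
              (by positivity)
        _ = 1 / 2 * (c₁ * (Real.log M / (2 * R)) ^ K) / ((1 + K) * W) := by
            rw [div_pow]
            field_simp
        _ ≤ 1 / 2 * ((∏ p ∈ P, (1 + (K : ℝ) / p)) * ((1 + K) * W)) / ((1 + K) * W) := by
            gcongr
        _ = 1 / 2 * ∏ p ∈ P, (1 + (K : ℝ) / p) := by field_simp
        _ ≤ T := k3
    · intro p hp
      have hp1 := Finset.mem_filter.1 (Finset.mem_filter.1 hp).1
      have hpY : (p : ℝ) ≤ Y := by exact_mod_cast (Finset.mem_Icc.1 hp1.1).2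
      have hp0 : (0 : ℝ) < p := by exact_mod_cast hp1.2.pos
      exact (mul_le_mul_of_nonneg_left (Real.log_le_log hp0 hpY) hη0.le).trans hηY
    · have h1 : ∑ p ∈ P, Real.log p / p ≤ Real.log Y + C₂ := by
        have h2 := (abs_le.1 (hC₂ Y (by omega))).2
        have h3 : ∑ p ∈ P, Real.log p / p ≤ ∑ p ∈ PP Y, Real.log p / p :=
          Finset.sum_le_sum_of_subset_of_nonneg (Finset.filter_subset _ _) fun p _ _ => by
            have := Real.log_natCast_nonneg p
            positivity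
        linarith
      have h4 : 3 * η * ∑ p ∈ P, Real.log p / p ≤ 3 * (1 + C₂) := by
        have h5 := mul_le_mul_of_nonneg_left h1 (show 0 ≤ 3 * η by positivity)
        have h6 : η * C₂ ≤ 1 * C₂ := mul_le_mul_of_nonneg_right hη1 hC₂0
        nlinarith
      have h7 := mul_le_mul_of_nonneg_left h4 (Nat.cast_nonneg (α := ℝ) K)
      rw [hE]
      linarith
    · rw [hη, ← hR]
      field_simp
      exact le_rfl

end Pool.Agent.Q162.MB
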